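import Pool.Agent.Helper28.SY.Main

/-!
# The individual `L`-functions of an abelian variety and the zeta functions of its symmetric powers

The zeta function of a smooth projective variety `X` over `ℚ` (of a model, up to finitely many Euler
factors) is the alternating product `∏ᵢ L(Hⁱ(X), s) ^ ((-1) ^ i)`, and its continuation says nothing
about the individual factors `L(Hⁱ(X), s)` of the question.  We show that for abelian varieties all the
factors are controlled by zeta functions of varieties, and conversely.

Let `A` be an abelian variety over `ℚ` of dimension `g`, with good reduction outside the primes `≤ P`.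
The following are equivalent.

1. The zeta functions of `Sym^{n_1} A × … × Sym^{n_m} A` have meromorphic continuations to `ℂ`, for all
`m` and all `n_1, …, n_m ≤ g`.
2. The same for all `m` and all `n_1, …, n_m`.
3. The `L`-functions `L(H^{n_1}(A) ⊗ … ⊗ H^{n_m}(A), s)` have meromorphic continuations to `ℂ`, for all
`m` and all `n_1, …, n_m`.
4. For every symmetric polynomial `Φ` with integral coefficients in `2g` variables the `L`-function with
the local traces `Φ(α_1 ^ k, …, α_{2g} ^ k)`, `α_i` the eigenvalues of Frobenius on `H¹(A)`, has a
meromorphic continuation to `ℂ`.  (By the theory of symmetric functions these are the `L`-functions of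
all the virtual representations `S_λ(H¹(A))`, `S_λ` the Schur functors.)

In this case `L(Hⁱ(A^m), s)` has a meromorphic continuation to `ℂ` for all `i` and `m`.  So the
part of the question which concerns meromorphic continuation, for all the cohomology groups of all the
powers of `A`, is equivalent to a statement about the zeta functions of the products of the `g` varieties
`A, Sym² A, …, Sym^g A`.  For an abelian surface these are the varieties `A^a × (Sym² A)^b`.

Only the numbers of points of `A` are used: in the theorem `X` is a scheme which for every prime `p > P`
and every `k ≥ 1` has `∏ᵢ (1 - α_i ^ k)` points over the field with `p ^ k` elements, where the `2g` numbers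
`α_i` have absolute value `√p` and product `p ^ g` and are permuted by complex conjugation (Weil).

Proof.  Put `x_i = α_i ^ k / q`, `q = p ^ k`.  Then `∑ₙ #Symⁿ(𝔽_q) (T / q^g) ^ n` is the product of the
factors `(1 - x_S T) ^ (-(-1) ^ |S|)`, `x_S = ∏_{i ∈ S} x_i`, over the subsets `S` of `{1, …, 2g}`.  After
multiplication by `1 - T` the coefficient of `T ^ n` is a symmetric polynomial in the `x_i` with lowest
term `(-1) ^ n e_n`.  Hence every symmetric polynomial in the `x_i`, which are of size `q ^ (-1/2)`, is
approximated up to `O(q ^ (-B))`, for every `B`, by polynomials in `q ^ (-1)` and the numbers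
`#Symⁿ(𝔽_q) / q ^ (g n)`, `n ≤ g`; for `n > g` the functional equation `e_{2g-n}(x) = q ^ (n-g) e_n(x)`,
`n ≤ g`, is used.  The Euler product of the error is holomorphic without zeros for `Re s > 1 - B`, and the
continuations to these half-planes fit together.

Definitions: `points X p k` is the number of the morphisms from the spectrum of the field with `p ^ k`
elements to `X`; `symPoints X n p k`, the number of the points of `Symⁿ X` over this field, is the number
of the multisets of `n` geometric points of `X` in characteristic `p` which are invariant under the `k`-th
power of Frobenius (`Pool/Agent/Helper28/SY/Defs.lean`).  `Continues P f` says that the Euler product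
`∏_{p > P} exp (∑_{k ≥ 1} f(p, k) p ^ (- k s) / k)` converges absolutely in a half-plane and extends to a
meromorphic function on `ℂ` (`Pool/Agent/Helper28/SY/Cont.lean`), and `AbelianCounts` is the hypothesis on
the numbers of points (`Pool/Agent/Helper28/SY/Main.lean`).
-/

set_option autoImplicit false

namespace Pool.Agent.Results.MP_039d94_nt.AbelianVarieties

open Pool.Agent.Helper28.SY AlgebraicGeometry Finset

/-- **The `L`-functions of the cohomology groups of an abelian variety and the zeta functions of its
symmetric powers.** -/
theorem result (g P : ℕ) (X : Scheme.{0}) (α : Nat.Primes → Fin (2 * g) → ℂ)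
    (hX : AbelianCounts g P X α) :
    List.TFAE [
      ∀ l : List ℕ, (∀ n ∈ l, n ≤ g) →
        Continues P (fun p k => (l.map fun n => (symPoints X n p k : ℂ)).prod),
      ∀ l : List ℕ, Continues P (fun p k => (l.map fun n => (symPoints X n p k : ℂ)).prod),
      ∀ l : List ℕ, Continues P (fun p k => (l.map fun n =>
        ∑ s ∈ powersetCard n (univ : Finset (Fin (2 * g))), ∏ i ∈ s, α p i ^ k).prod),
      ∀ Φ : MvPolynomial (Fin (2 * g)) ℤ, Φ.IsSymmetric →
        Continues P (fun p k => MvPolynomial.aeval (fun i => α p i ^ k) Φ)] ∧
    ((∀ l : List ℕ, (∀ n ∈ l, n ≤ g) →
        Continues P (fun p k => (l.map fun n => (symPoints X n p k : ℂ)).prod)) →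
      ∀ m n : ℕ, Continues P (fun p k =>
        ∑ s ∈ powersetCard n (univ : Finset (Fin m × Fin (2 * g))), ∏ x ∈ s, α p x.2 ^ k)) :=
  ⟨main hX, fun h => powers_of_all (((main hX).out 0 3).1 h)⟩

end Pool.Agent.Results.MP_039d94_nt.AbelianVarieties
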