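import Pool.Agent.Helper90.PH.Named
import Pool.Agent.Helper90.PH.EQV
import Pool.Agent.Helper90.PH.SUPP
import Pool.Agent.Helper90.PH.POLY

/-!
# All zeta functions from the class numbers of the pattern groups of bipartite graphs: two full elements
are enough, one is not

Let `R` be a strict partial order on a finite set.  The pattern group of `R` over the field `K` consists of
the matrices, rows and columns indexed by the set, with ones on the diagonal whose other entries vanish
outside of the positions `(i, j)` with `R i j`.  Its class number is the number of its conjugacy classes.
Higman's conjecture says that the class number is a polynomial in the number `q` of elements of `K` if `R`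
is a total order.

Let `T` be a bipartite graph, a set of pairs `(i, j)`, `i < a`, `j < c`, and `e ≥ 0`.  The ordered set
`P(T, e)` has `a` minimal elements, `c` maximal elements, each minimal element is below each maximal
element, and there are two kinds of elements in the middle: `e` full elements, which are above all the
minimal and below all the maximal elements, and for every edge `(i, j)` of `T` one thin element, which is
above the minimal element `i` and below the maximal element `j` only.  The pattern groups of `P(T, e)`
are nilpotent of class at most two.  Let `k(T, e)(K) = kP a c e T K` be their class numbers.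

1. `k(T, e)(K) = ∑ q ^ (e (a + c - 2 rank L) + 2 #{t ∈ T : L_t = 0})`, the sum over all the `a × c`
   matrices `L` over `K`.
2. For `e ≤ 1` the class numbers `k(T, e)(K)` are polynomials in `q`, for all `T`.
3. For every fixed `e ≥ 2`, in particular for `e = 2`, the numbers of solutions of all systems of
   polynomial equations over `ℤ` are expressed by the class numbers `k(T, e)`:
   `q ^ a ∏ⱼ (q ^ bⱼ - 1) · #{solutions of f in K} = ∑ᵢ Aᵢ(q) · k(Tᵢ, e)(K)` for all finite fields `K`.
4. So, for every fixed `e ≥ 2`, the question of the meromorphic continuation of the zeta functions of all
   the varieties (for smooth projective `X` over `ℚ` this is, up to finitely many Euler factors, the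
   alternating product `∏ᵢ L(Hⁱ(X), s) ^ ((-1) ^ i)`) is equivalent to the question of the meromorphic
   continuation of the zeta functions of the class numbers `k(T, e)`.

Proof.  1. Count the commuting pairs on the side of the dual of the corner of the minimal and the maximal
elements.  2. For `e = 1` one counts, after inclusion and exclusion over `T`, triples of a matrix `L` with
prescribed zeros, a vector `v` with `L v = 0` and a vector `w` with `w L = 0`; for given `v`, `w` the number
of the `L` is a power of `q` whose exponent depends only on the supports of `v` and `w` (count the
components of a graph).  3. The sums `G_j = ∑_L #(ker L) ^ j`, over the matrices with prescribed zeros,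
satisfy `q ^ j G_j⁺ = q ^ c ((q ^ j - 1) G_{j-1} + G_j)`, where `G_j⁺` is the sum for one more free row, so
they are expressed by `k(T, e)` for all `j ≤ 2 e`.  For `j = 3 ≤ 2 e` one counts configurations of `c`
vectors in three-space, and, by duality of every row, pairs of families of vectors in three-space with
prescribed orthogonality relations; these encode sums and products of coordinates (von Staudt), as in
`MP_039d94_nt.PrescribedZeros`.

The library theorem `MP_666bea_ag.PatternGroups` has the equivalence 4 for the family of all the ordered
sets without chains of four elements (with middle elements of all kinds).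

The module `PH.EQV` is by helper2, `PH.SUPP` and `PH.POLY` are by helper71.

`points`, `Continues` and `FromPoints` are defined in the library module `E8helper17.FZ.Defs`,
`patternGroup` in `Pool/Agent/Helper90/PG/Group.lean`, the elements `Ix` and the order `rel` of `P(T, e)` in
`Pool/Agent/Helper90/PG/Three.lean`, `kP` in `Pool/Agent/Helper90/PH/Fin.lean`; `rankSum`, `IsPolynomial` and
`Expressed` name the sum in 1, the property in 2 and the formula in 3 (`Pool/Agent/Helper90/PH/Named.lean`).
-/

set_option autoImplicit false

namespace Pool.Agent.Results.MP_039d94_nt.ClassNumbersOfPatternGroups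

open Pool.Agent.Helper90.PZ Pool.Agent.Helper90.PG Pool.Agent.Helper90.PH Pool.Agent.E8helper17.FZ

/-- **Class numbers of the pattern groups of bipartite graphs and the zeta functions of all varieties.** -/
theorem result :
    (∀ (a c e : ℕ) (T : Finset (Fin a × Fin c)) (K : Type) [Field K] [Fintype K],
      kP a c e T K = rankSum a c e T K) ∧
    (∀ (a c e : ℕ) (T : Finset (Fin a × Fin c)), e ≤ 1 → IsPolynomial (kP a c e T)) ∧
    (∀ (e n s : ℕ) (f : Fin s → MvPolynomial (Fin n) ℤ), 2 ≤ e →
      Expressed e (fun K _ => (points f K : ℤ))) ∧
    ∀ (P e : ℕ), 2 ≤ e → List.TFAE [
      ∀ N : (K : Type) → [Field K] → ℤ, FromPoints P N → Continues P N,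
      ∀ (n s : ℕ) (f : Fin s → MvPolynomial (Fin n) ℤ), Continues P (fun K _ => (points f K : ℤ)),
      ∀ (N : ℕ) (R : Fin N → Fin N → Prop) (hR : IsStrictOrder (Fin N) R),
        Continues P (fun K _ => (Nat.card (ConjClasses (patternGroup R hR K)) : ℤ)),
      ∀ (a c : ℕ) (T : Finset (Fin a × Fin c)), Continues P (kP a c e T)] := by
  refine ⟨fun a c e T K _ _ => kP_sum a c e T K,
    fun a c e T he => kP_poly (POLY.main (SUPP.main EQV.main)) he a c T, fun e n s f he => ?_,
    fun P e he => ?_⟩
  · obtain ⟨a, t, m, b, A, j, hb, h⟩ := points_formula_kP he f
    exact ⟨a, t, m, b, A, fun i => (j i).a, fun i => (j i).c, fun i => (j i).T, hb, fun K _ _ => h K⟩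
  · have h := tfae_kP (closed_continues P) he
    tfae_have 1 → 2 := fun h n s f => h _ (fromPoints_points P f)
    tfae_have 2 → 1 := fun h N hN => from_all h N hN
    tfae_have 2 ↔ 3 := h.out 0 1
    tfae_have 2 ↔ 4 := h.out 0 2
    tfae_finish

end Pool.Agent.Results.MP_039d94_nt.ClassNumbersOfPatternGroups
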