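import Pool.Agent.Helper28.OR.Main

/-!
# One-relator groups and the zeta functions of all varieties, dimension by dimension

For a group `Γ` with `n` generators let `R(Γ)` be the scheme of the homomorphisms of `Γ` into the group
`x ↦ a x + b` of the affine transformations of the line; over a field `K` its points are the elements
of `Γ →* (K ≃ᵃ[K] K)`.  We compare the zeta functions of these schemes, the Euler products
`∏_p exp (∑_{k ≥ 1} #R(Γ)(𝔽_{p^k}) p^{-ks} / k)`, with the zeta functions of arbitrary systems of
polynomial equations over `ℤ` in the SAME number `n ≥ 2` of variables.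

1. (Unconditional.) Every polynomial `g` with integral coefficients in `n ≥ 2` variables belongs to a
group `Γ` with `n` generators and one relator, which is a product of commutators, such that for all
the finite fields `K` at the same time, `q` the number of elements of `K`,
`#Hom(Γ, Aff(K)) = q^(n-1) (q-1)^n + q^(n-1) (q-1) #{a ∈ (Kˣ)^n : g(a) = 0 or a_1 = a_2 = 1}`.

2. For every `n ≥ 2` the meromorphic continuation to `ℂ` is equivalent for the zeta functions of the
following four classes: all systems of equations in `n` variables; all hypersurfaces `g = 0` in `n`
variables; the schemes `R(Γ)` for the groups `Γ` with `n` generators and one relator (in the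
commutator subgroup, or arbitrary); the schemes `R(Γ)` for all groups `Γ` with `n` generators, with any
relators.

For a smooth projective variety `X` over `ℚ` the zeta function of a model is, up to finitely many Euler
factors, the alternating product `∏ᵢ L(Hⁱ(X), s) ^ ((-1) ^ i)` of the `L`-functions of the question.  For
a curve `C`, birational to a plane curve `g(x, y) = 0`, the zeta function of `g = 0` is
`ζ(s - 1) / L(H¹(C), s)` up to Dedekind zeta functions and finitely many Euler factors.  So the case
`n = 2` says that the `L(H¹(C), s)` of all curves over `ℚ` have meromorphic continuations if and only if the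
zeta functions of the schemes `R(Γ)` have them for all groups with two generators and one relator.

Proof.  By the free differential calculus of Fox the value of a word `w` at the transformations
`x ↦ a_i x + b_i` has a translation part which is linear in the `b_i` with coefficients in
`ℤ[a_1^{±1}, …, a_n^{±1}]`.  For 1 the word is built from the monomials of `g` so that its value is the
translation by `g(a) ((1 - a_2) b_1 + (a_1 - 1) b_2)`.  The points with `a_1 = a_2 = 1` are removed by
applying this to `g(1, 1, a_3, …)`, systems are reduced to hypersurfaces by inclusion and exclusion, and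
the affine space is the union of tori.  In the other direction finitely many relators suffice for all
fields (Hilbert's basis theorem) and the `b_i` are eliminated; the variables `a_i` remain.  The divisions
by `q^a (q-1)^b (q-2)` which occur are compatible with continuation (library, `E8helper17.FZ.Mon`).

`points` (the number of solutions of a system in a field) and `Continues` are defined in the library
module `E8helper17.FZ.Defs`: `Continues P N` says that
`∏_{p > P} exp (∑_{k ≥ 1} N(𝔽_{p^k}) p^{-ks} / k)` converges absolutely in a half-plane and extends to a
meromorphic function on `ℂ`.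
-/

set_option autoImplicit false

namespace Pool.Agent.Results.MP_039d94_nt.OneRelatorGroups

open Pool.Agent.Helper28.OR Pool.Agent.E8helper17.FZ

/-- **One-relator groups and the zeta functions of all systems of equations in the same number of
variables**, `n = m + 2`. -/
theorem result (m : ℕ) :
    (∀ g : MvPolynomial (Fin (m + 2)) ℤ, ∃ w ∈ commutator (FreeGroup (Fin (m + 2))),
      ∀ (K : Type) [Field K] [Finite K],
        (Nat.card (PresentedGroup {w} →* (K ≃ᵃ[K] K)) : ℤ) =
          (Nat.card K : ℤ) ^ (m + 1) * ((Nat.card K : ℤ) - 1) ^ (m + 2) +
          (Nat.card K : ℤ) ^ (m + 1) * ((Nat.card K : ℤ) - 1) *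
            Nat.card {a : Fin (m + 2) → Kˣ //
              MvPolynomial.aeval (fun i => (a i : K)) g = 0 ∨ (a 0 = 1 ∧ a 1 = 1)}) ∧
    ∀ P : ℕ, List.TFAE [
      ∀ (r : ℕ) (f : Fin r → MvPolynomial (Fin (m + 2)) ℤ),
        Continues P (fun K _ => (points f K : ℤ)),
      ∀ g : MvPolynomial (Fin (m + 2)) ℤ,
        Continues P (fun K _ => (points (fun _ : Fin 1 => g) K : ℤ)),
      ∀ w ∈ commutator (FreeGroup (Fin (m + 2))),
        Continues P (fun K _ => (Nat.card (PresentedGroup {w} →* (K ≃ᵃ[K] K)) : ℤ)),
      ∀ w : FreeGroup (Fin (m + 2)),
        Continues P (fun K _ => (Nat.card (PresentedGroup {w} →* (K ≃ᵃ[K] K)) : ℤ)),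
      ∀ (Γ : Type) [Group Γ] (x : Fin (m + 2) → Γ), Subgroup.closure (Set.range x) = ⊤ →
        Continues P (fun K _ => (Nat.card (Γ →* (K ≃ᵃ[K] K)) : ℤ))] :=
  ⟨fun g => exists_word_card g, fun P => tfae_groups m P⟩

end Pool.Agent.Results.MP_039d94_nt.OneRelatorGroups
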