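import Pool.Agent.Helper90.PZ.Main
import Pool.Agent.Helper90.RK2.Fin
import Pool.Agent.Helper90.RK2.FAC
import Pool.Agent.Helper90.RK2.DIV
import Pool.Agent.Helper90.RK2.ONE

/-!
# All zeta functions from matrices with prescribed zeros

For a set `S` of positions let `SL_n(S)` be the scheme of the `n × n` matrices of determinant `1`, and
`GL_n(S)` the scheme of the invertible `n × n` matrices, whose entries at the positions in `S` are zero.
Without these conditions the numbers of points over the field with `q` elements are the well known
products of powers of `q` and of factors `q ^ b - 1`.  We show that with prescribed zeros these schemes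
are as complicated as all the schemes of finite type over `ℤ`, in the following precise sense.

1. (Unconditional.) For every system `f` of polynomial equations over `ℤ` there is a formula, valid for
all the finite fields `K` at the same time, `q` the number of elements of `K`:
`q ^ a ∏ⱼ (q ^ bⱼ - 1) · #{solutions of f in K} = ∑ᵢ Aᵢ(q) · #SL(Sᵢ)(K)`.

2. Hence the question of the meromorphic continuation of the zeta functions of all the varieties (for
smooth projective `X` over `ℚ` this is, up to finitely many Euler factors, the alternating product
`∏ᵢ L(Hⁱ(X), s) ^ ((-1) ^ i)`) is equivalent to the same question for each of the following families: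
matrices of determinant one with prescribed zeros; invertible matrices with prescribed zeros; matrices
of rank `r` with prescribed zeros, of all formats, for any fixed `r ≥ 3` (the determinants have
coefficients `0`, `1`, `-1` and degree at most one in each variable).

3. The bound `r ≥ 3` is sharp: for `r ≤ 2` the number of the matrices of rank `r` with prescribed zeros is
a polynomial in `q`, so their zeta functions are products of translates of Riemann's zeta function and of
their inverses.

Proof.  A system of equations is replaced by equations `x = 1`, `x = y + z`, `z = x y`, and these are
encoded by incidences of points and lines of the projective plane, in such a way that each new point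
and each new line is determined, up to a nonzero factor, by two incidences and one nonincidence, for
all values of the variables; no degenerate cases have to be excluded.  The matrix of the values of the
linear forms (lines) at the vectors (points) is a matrix of rank three with prescribed zeros and
prescribed nonzero entries.  The conditions that entries are not zero are removed by inclusion and
exclusion, and the numbers of matrices of rank `r` with prescribed zeros are computed recursively from
the numbers of invertible matrices with prescribed zeros by adding unrestricted rows and columns.  The
divisions by `q ^ a ∏ (q ^ b - 1)` are compatible with continuation (library, `E8helper17.FZ.Mon`).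
For 3 the matrices of rank two are pairs of spanning families in the plane modulo `GL₂`; the condition that
two vectors are orthogonal says that they are zero or have corresponding directions, so that one has to count
the colourings of certain graphs with `q + 1` colours and with given equalities of colours.  The module
`RK2.FAC` is by helper19, `RK2.DIV` by helper30, `RK2.ONE` by helper99.

`points`, `Continues` and `FromPoints` are defined in the library module `E8helper17.FZ.Defs`, and
`slZeros`, `glZeros`, `rankZeros` in `Pool/Agent/Helper90/PZ/Main.lean`.
-/

set_option autoImplicit false

namespace Pool.Agent.Results.MP_039d94_nt.PrescribedZeros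

open Pool.Agent.Helper90.PZ Pool.Agent.E8helper17.FZ

/-- **Matrices with prescribed zeros and the zeta functions of all varieties.** -/
theorem result :
    (∀ (n s : ℕ) (f : Fin s → MvPolynomial (Fin n) ℤ),
      ∃ (a t m : ℕ) (b : Fin t → ℕ) (A : Fin m → Polynomial ℤ) (k : Fin m → ℕ)
        (S : ∀ i, Finset (Fin (k i) × Fin (k i))), (∀ j, 0 < b j) ∧
        ∀ (K : Type) [Field K] [Finite K],
          ((Nat.card K : ℤ) ^ a * ∏ j, ((Nat.card K : ℤ) ^ b j - 1)) * (points f K : ℤ) =
            ∑ i, (A i).eval (Nat.card K : ℤ) * (slZeros (S i) K : ℤ)) ∧
    (∀ P r : ℕ, 3 ≤ r → List.TFAE [
      ∀ N : (K : Type) → [Field K] → ℤ, FromPoints P N → Continues P N,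
      ∀ (n s : ℕ) (f : Fin s → MvPolynomial (Fin n) ℤ), Continues P (fun K _ => (points f K : ℤ)),
      ∀ (n : ℕ) (S : Finset (Fin n × Fin n)), Continues P (fun K _ => (slZeros S K : ℤ)),
      ∀ (n : ℕ) (S : Finset (Fin n × Fin n)), Continues P (fun K _ => (glZeros S K : ℤ)),
      ∀ (m n : ℕ) (S : Finset (Fin m × Fin n)), Continues P (fun K _ => (rankZeros r S K : ℤ))]) ∧
    ∀ (r m n : ℕ) (S : Finset (Fin m × Fin n)), r ≤ 2 → ∃ F : Polynomial ℤ,
      ∀ (K : Type) [Field K] [Finite K], (rankZeros r S K : ℤ) = F.eval (Nat.card K : ℤ) := by
  refine ⟨fun n s f => points_formula f, fun P r hr => ?_, fun r m n S hr =>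
    Pool.Agent.Helper90.RK2.rank_poly Pool.Agent.Helper90.RK2.FAC.main Pool.Agent.Helper90.RK2.DIV.main
      Pool.Agent.Helper90.RK2.ONE.main hr m n S⟩
  have h := tfae_class (closed_continues P) hr
  tfae_have 1 → 2 := fun h n s f => h _ (fromPoints_points P f)
  tfae_have 2 → 1 := fun h N hN => from_all h N hN
  tfae_have 2 ↔ 3 := h.out 0 1
  tfae_have 2 ↔ 4 := h.out 0 2
  tfae_have 2 ↔ 5 := h.out 0 3
  tfae_finish

end Pool.Agent.Results.MP_039d94_nt.PrescribedZeros
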